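import Mathlib

set_option autoImplicit false

/-!
# A Lipschitz homeomorphism of a nonseparable Hilbert space without points of Gateaux
differentiability

Let `H` be a nonseparable real Hilbert space and `ε > 0`. There is a bijection `φ` of `H` onto `H`
with `‖x - y‖ ≤ ‖φ x - φ y‖ ≤ (1 + ε) ‖x - y‖` for all `x`, `y` which is Gateaux differentiable at
no point of `H`. In coordinates `φ` is `(x_i) ↦ (g (x_i))` with `g t = t` for `t ≥ 0` and
`g t = (1 + ε) t` for `t < 0`: every `x` has a coordinate `x_i = 0`, and the directional derivative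
of `φ` at `x` in the direction of the `i`-th basis vector does not exist.
-/

open Filter Topology

namespace Pool.Agent.Results.MP_714461_an.NowhereGateaux

/-- `φ : X → Y` is Gateaux differentiable at `x₀`: there is a bounded linear operator `T : X → Y`
with `(φ (x₀ + t h) - φ x₀) / t → T h` in norm, as `t → 0`, for every `h ∈ X`. -/
def GateauxDifferentiableAt {X Y : Type*} [NormedAddCommGroup X] [NormedSpace ℝ X]
    [NormedAddCommGroup Y] [NormedSpace ℝ Y] (φ : X → Y) (x₀ : X) : Prop :=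
  ∃ T : X →L[ℝ] Y, ∀ h : X,
    Tendsto (fun t : ℝ => t⁻¹ • (φ (x₀ + t • h) - φ x₀)) (𝓝[≠] 0) (𝓝 (T h))

/-- the scalar function -/
noncomputable def g (c t : ℝ) : ℝ := if 0 ≤ t then t else c * t

/-- its inverse -/
noncomputable def gi (c t : ℝ) : ℝ := if 0 ≤ t then t else c⁻¹ * t

theorem gi_g {c : ℝ} (hc : 1 ≤ c) (t : ℝ) : gi c (g c t) = t := by
  have hc0 : 0 < c := by linarith
  unfold gi g
  by_cases ht : 0 ≤ t
  · rw [if_pos ht, if_pos ht]
  · rw [if_neg ht, if_neg, inv_mul_cancel_left₀ hc0.ne']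
    push Not at ht ⊢
    exact mul_neg_of_pos_of_neg hc0 ht

theorem g_gi {c : ℝ} (hc : 1 ≤ c) (t : ℝ) : g c (gi c t) = t := by
  have hc0 : 0 < c := by linarith
  unfold gi g
  by_cases ht : 0 ≤ t
  · rw [if_pos ht, if_pos ht]
  · rw [if_neg ht, if_neg, mul_inv_cancel_left₀ hc0.ne']
    push Not at ht ⊢
    exact mul_neg_of_pos_of_neg (inv_pos.2 hc0) ht

theorem g_upper {c : ℝ} (hc : 1 ≤ c) (s t : ℝ) : |g c s - g c t| ≤ c * |s - t| := by
  unfold g
  split_ifs with h1 h2 h2
  · nlinarith [abs_nonneg (s - t)]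
  · push Not at h2
    rw [abs_of_nonneg (by nlinarith), abs_of_nonneg (by linarith)]
    nlinarith
  · push Not at h1
    rw [abs_of_nonpos (by nlinarith), abs_of_nonpos (by linarith)]
    nlinarith
  · rw [← mul_sub, abs_mul, abs_of_nonneg (by linarith : (0:ℝ) ≤ c)]

theorem g_lower {c : ℝ} (hc : 1 ≤ c) (s t : ℝ) : |s - t| ≤ |g c s - g c t| := by
  unfold g
  split_ifs with h1 h2 h2
  · exact le_rfl
  · push Not at h2
    rw [abs_of_nonneg (by nlinarith : 0 ≤ s - c * t), abs_of_nonneg (by linarith)]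
    nlinarith
  · push Not at h1
    rw [abs_of_nonpos (by nlinarith : c * s - t ≤ 0), abs_of_nonpos (by linarith)]
    nlinarith
  · rw [← mul_sub, abs_mul, abs_of_nonneg (by linarith : (0:ℝ) ≤ c)]
    nlinarith [abs_nonneg (s - t)]

theorem g_zero (c : ℝ) : g c 0 = 0 := by simp [g]

theorem gi_zero (c : ℝ) : gi c 0 = 0 := by simp [gi]

theorem g_abs {c : ℝ} (hc : 1 ≤ c) (t : ℝ) : |g c t| ≤ c * |t| := by
  have := g_upper hc t 0
  rwa [g_zero, sub_zero, sub_zero] at this

theorem gi_abs {c : ℝ} (hc : 1 ≤ c) (t : ℝ) : |gi c t| ≤ |t| := by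
  have := g_lower hc (gi c t) 0
  rwa [g_zero, sub_zero, sub_zero, g_gi hc] at this

section lp

variable {ι : Type*}

/-- coordinatewise action of a function with `|u t| ≤ C |t|` -/
theorem mem_comp (u : ℝ → ℝ) (C : ℝ) (hu : ∀ t, |u t| ≤ C * |t|) (x : lp (fun _ : ι => ℝ) 2) :
    Memℓp (fun i => u (x i)) 2 := by
  have hx : Memℓp (fun i => C * x i) 2 := (lp.memℓp x).const_mul C
  have h2 : (0 : ℝ) < (2 : ENNReal).toReal := by norm_num
  rw [memℓp_gen_iff h2] at hx ⊢
  refine Summable.of_nonneg_of_le (fun i => by positivity) (fun i => ?_) hx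
  refine Real.rpow_le_rpow (norm_nonneg _) ?_ h2.le
  rw [Real.norm_eq_abs, Real.norm_eq_abs, abs_mul]
  refine (hu _).trans ?_
  exact mul_le_mul_of_nonneg_right (le_abs_self C) (abs_nonneg _)

/-- the homeomorphism of `ℓ²(ι)` -/
noncomputable def G (c : ℝ) (hc : 1 ≤ c) :
    lp (fun _ : ι => ℝ) 2 ≃ lp (fun _ : ι => ℝ) 2 where
  toFun x := ⟨fun i => g c (x i), mem_comp (g c) c (g_abs hc) x⟩
  invFun x := ⟨fun i => gi c (x i), mem_comp (gi c) 1
    (fun t => by rw [one_mul]; exact gi_abs hc t) x⟩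
  left_inv x := by
    ext i
    exact gi_g hc (x i)
  right_inv x := by
    ext i
    exact g_gi hc (x i)

theorem G_apply (c : ℝ) (hc : 1 ≤ c) (x : lp (fun _ : ι => ℝ) 2) (i : ι) :
    G c hc x i = g c (x i) := rfl

theorem norm_le_of_coord (C : ℝ) (hC : 0 ≤ C) (x y : lp (fun _ : ι => ℝ) 2)
    (h : ∀ i, |x i| ≤ C * |y i|) : ‖x‖ ≤ C * ‖y‖ := by
  have h2 : (0 : ℝ) < (2 : ENNReal).toReal := by norm_num
  have e : ‖C • y‖ = C * ‖y‖ := by rw [norm_smul, Real.norm_eq_abs, abs_of_nonneg hC]
  rw [← e, lp.norm_eq_tsum_rpow h2, lp.norm_eq_tsum_rpow h2]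
  refine Real.rpow_le_rpow (tsum_nonneg fun i => by positivity) ?_ (by positivity)
  have hs : Summable fun i => ‖(C • y) i‖ ^ (2 : ENNReal).toReal :=
    (memℓp_gen_iff h2).1 (lp.memℓp (C • y))
  have hle : ∀ i, ‖x i‖ ^ (2 : ENNReal).toReal ≤ ‖(C • y) i‖ ^ (2 : ENNReal).toReal := by
    intro i
    refine Real.rpow_le_rpow (norm_nonneg _) ?_ h2.le
    rw [lp.coeFn_smul, Pi.smul_apply, smul_eq_mul, Real.norm_eq_abs, Real.norm_eq_abs, abs_mul,
      abs_of_nonneg hC]
    exact h i
  exact Summable.tsum_le_tsum hle (Summable.of_nonneg_of_le (fun i => by positivity) hle hs) hs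

theorem G_upper (c : ℝ) (hc : 1 ≤ c) (x y : lp (fun _ : ι => ℝ) 2) :
    ‖G c hc x - G c hc y‖ ≤ c * ‖x - y‖ :=
  norm_le_of_coord c (by linarith) _ _ fun i => g_upper hc (x i) (y i)

theorem G_lower (c : ℝ) (hc : 1 ≤ c) (x y : lp (fun _ : ι => ℝ) 2) :
    ‖x - y‖ ≤ ‖G c hc x - G c hc y‖ := by
  have := norm_le_of_coord 1 zero_le_one (x - y) (G c hc x - G c hc y) fun i => by
    rw [one_mul]
    exact g_lower hc (x i) (y i)
  rwa [one_mul] at this

theorem exists_zero [Uncountable ι] (x : lp (fun _ : ι => ℝ) 2) : ∃ i, x i = 0 := by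
  by_contra hcon
  push Not at hcon
  have h2 : (0 : ℝ) < (2 : ENNReal).toReal := by norm_num
  have hs : Summable fun i => ‖x i‖ ^ (2 : ENNReal).toReal := (memℓp_gen_iff h2).1 (lp.memℓp x)
  have hc := hs.countable_support
  have : (Function.support fun i => ‖x i‖ ^ (2 : ENNReal).toReal) = Set.univ := by
    rw [Set.eq_univ_iff_forall]
    intro i
    rw [Function.mem_support]
    exact (Real.rpow_pos_of_pos (norm_pos_iff.2 (hcon i)) _).ne'
  rw [this, Set.countable_univ_iff] at hc
  exact not_countable (α := ι) hc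

end lp

/-- Every real Hilbert space which is not separable has an uncountable orthonormal basis. -/
theorem exists_basis (H : Type*) [NormedAddCommGroup H] [InnerProductSpace ℝ H] [CompleteSpace H]
    (hsep : ¬ TopologicalSpace.SeparableSpace H) :
    ∃ (w : Set H) (_ : HilbertBasis w ℝ H), Uncountable w := by
  obtain ⟨w, b, -⟩ := exists_hilbertBasis ℝ H
  refine ⟨w, b, ?_⟩
  by_contra hcon
  rw [not_uncountable_iff] at hcon
  apply hsep
  rw [← TopologicalSpace.isSeparable_univ_iff]
  have h1 : TopologicalSpace.IsSeparable (Submodule.span ℝ (Set.range b) : Set H) :=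
    (Set.countable_range b).isSeparable.span
  have h2 := h1.closure
  have h3 : closure (Submodule.span ℝ (Set.range b) : Set H) = Set.univ := by
    rw [← Submodule.topologicalClosure_coe, b.dense_span]
    rfl
  rwa [h3] at h2

/-- Hilbert spaces are reflexive. -/
theorem reflexive (H : Type*) [NormedAddCommGroup H] [InnerProductSpace ℝ H]
    [CompleteSpace H] : Function.Surjective (NormedSpace.inclusionInDoubleDual ℝ H) := by
  intro Ψ
  let φ : H →L[ℝ] ℝ := LinearMap.mkContinuous
    { toFun := fun y => Ψ (innerSL ℝ y)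
      map_add' := fun y z => by rw [map_add, map_add]
      map_smul' := fun c y => by
        rw [map_smulₛₗ]
        simp } (‖Ψ‖) (fun y => by
          have h := Ψ.le_opNorm (innerSL ℝ y)
          rwa [innerSL_apply_norm] at h)
  refine ⟨(InnerProductSpace.toDual ℝ H).symm φ, ?_⟩
  ext g
  rw [NormedSpace.dual_def]
  obtain ⟨y, rfl⟩ := (InnerProductSpace.toDual ℝ H).surjective g
  rw [InnerProductSpace.toDual_apply_apply]
  have h1 : Ψ (InnerProductSpace.toDual ℝ H y) = φ y := rfl
  rw [h1, real_inner_comm, InnerProductSpace.toDual_symm_apply]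

theorem nowhere {ι : Type*} [Uncountable ι] (c : ℝ) (hc : 1 < c) {H : Type*}
    [NormedAddCommGroup H] [InnerProductSpace ℝ H] (b : H ≃ₗᵢ[ℝ] lp (fun _ : ι => ℝ) 2) (x₀ : H) :
    ¬ GateauxDifferentiableAt (fun x => b.symm (G c hc.le (b x))) x₀ := by
  classical
  rintro ⟨T, hT⟩
  obtain ⟨i, hi⟩ := exists_zero (b x₀)
  have h1 := hT (b.symm (lp.single 2 i 1))
  -- the `i`-th coordinate of the difference quotient
  have hcont : Continuous fun z : H => b z i :=
    ((lp.evalCLM ℝ (fun _ : ι => ℝ) 2 i).continuous).comp b.continuous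
  have h2 : Tendsto (fun t : ℝ => t⁻¹ * g c t) (𝓝[≠] 0)
      (𝓝 (b (T (b.symm (lp.single 2 i 1))) i)) := by
    refine ((hcont.tendsto _).comp h1).congr fun t => ?_
    simp only [Function.comp]
    rw [map_smul, map_sub, LinearIsometryEquiv.apply_symm_apply,
      LinearIsometryEquiv.apply_symm_apply, map_add, map_smul,
      LinearIsometryEquiv.apply_symm_apply, lp.coeFn_smul, Pi.smul_apply, lp.coeFn_sub,
      Pi.sub_apply, G_apply, G_apply, lp.coeFn_add, Pi.add_apply, lp.coeFn_smul, Pi.smul_apply,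
      hi, g_zero, sub_zero, zero_add, smul_eq_mul, lp.single_apply_self, smul_eq_mul, mul_one]
  have hR : Tendsto (fun t : ℝ => t⁻¹ * g c t) (𝓝[>] 0) (𝓝 1) := by
    refine tendsto_const_nhds.congr' ?_
    filter_upwards [self_mem_nhdsWithin] with t ht
    have ht' : (0 : ℝ) < t := ht
    rw [g, if_pos ht'.le, inv_mul_cancel₀ ht'.ne']
  have hL : Tendsto (fun t : ℝ => t⁻¹ * g c t) (𝓝[<] 0) (𝓝 c) := by
    refine tendsto_const_nhds.congr' ?_
    filter_upwards [self_mem_nhdsWithin] with t ht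
    have ht' : t < (0 : ℝ) := ht
    rw [g, if_neg (not_le.2 ht'), mul_comm c t, inv_mul_cancel_left₀ ht'.ne]
  have e1 := tendsto_nhds_unique (h2.mono_left (nhdsGT_le_nhdsNE 0)) hR
  have e2 := tendsto_nhds_unique (h2.mono_left (nhdsLT_le_nhdsNE 0)) hL
  rw [e1] at e2
  exact hc.ne e2

/-- **Nowhere Gateaux differentiable Lipschitz homeomorphisms.** (1) There is a nonseparable real
Hilbert space. (2) Every nonseparable real Hilbert space `H` is reflexive and uniformly convex
(hence superreflexive), and for every `ε > 0` there is a bijection `φ` of `H` onto `H` with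
`‖x - y‖ ≤ ‖φ x - φ y‖ ≤ (1 + ε) ‖x - y‖` for all `x, y` (so that `φ` and its inverse are
Lipschitz) which is Gateaux differentiable at no point of `H`. -/
theorem result :
    (∃ (H : Type) (_ : NormedAddCommGroup H) (_ : InnerProductSpace ℝ H) (_ : CompleteSpace H),
      ¬ TopologicalSpace.SeparableSpace H) ∧
    ∀ (H : Type*) [NormedAddCommGroup H] [InnerProductSpace ℝ H] [CompleteSpace H],
      ¬ TopologicalSpace.SeparableSpace H →
      Function.Surjective (NormedSpace.inclusionInDoubleDual ℝ H) ∧ UniformConvexSpace H ∧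
      ∀ ε : ℝ, 0 < ε → ∃ φ : H ≃ H,
        (∀ x y : H, ‖x - y‖ ≤ ‖φ x - φ y‖ ∧ ‖φ x - φ y‖ ≤ (1 + ε) * ‖x - y‖) ∧
        ∀ x₀ : H, ¬ GateauxDifferentiableAt φ x₀ := by
  refine ⟨?_, ?_⟩
  · refine ⟨lp (fun _ : ℝ => ℝ) 2, inferInstance, inferInstance, inferInstance, ?_⟩
    intro hsep
    classical
    -- the unit vectors form an uncountable separated set
    let e : ℝ → lp (fun _ : ℝ => ℝ) 2 := fun i => lp.single 2 i 1
    have hd : ∀ i j, i ≠ j → 1 ≤ dist (e i) (e j) := by
      intro i j hij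
      rw [dist_eq_norm]
      have h1 := lp.norm_apply_le_norm (by norm_num : (2 : ENNReal) ≠ 0) (e i - e j) i
      have h2 : (e i - e j) i = 1 := by
        rw [lp.coeFn_sub, Pi.sub_apply, lp.single_apply_self, lp.single_apply_ne _ _ _ hij,
          sub_zero]
      rwa [h2, norm_one] at h1
    obtain ⟨D, hDc, hDd⟩ := hsep.exists_countable_dense
    have hch : ∀ i : ℝ, ∃ d ∈ D, dist (e i) d < 1 / 2 := fun i => by
      obtain ⟨d, hd1, hd2⟩ := hDd.exists_dist_lt (e i) (by norm_num : (0 : ℝ) < 1 / 2)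
      exact ⟨d, hd1, hd2⟩
    choose d hdD hdd using hch
    have hinj : Function.Injective d := by
      intro i j hij
      by_contra hne
      have h1 := hd i j hne
      have h2 := dist_triangle_right (e i) (e j) (d i)
      have h3 := hdd j
      rw [← hij] at h3
      linarith [hdd i]
    have hcnt : Countable ℝ := by
      have : Countable D := hDc.to_subtype
      exact Function.Injective.countable (f := fun i : ℝ => (⟨d i, hdD i⟩ : D))
        fun i j hij => hinj (congrArg Subtype.val hij)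
    exact not_countable (α := ℝ) hcnt
  · intro H _ _ _ hsep
    refine ⟨reflexive H, inferInstance, fun ε hε => ?_⟩
    obtain ⟨w, b, hw⟩ := exists_basis H hsep
    have hc : 1 < 1 + ε := by linarith
    refine ⟨(b.repr.toEquiv.trans (G (1 + ε) hc.le)).trans b.repr.symm.toEquiv, ?_, ?_⟩
    · intro x y
      have e1 : ‖b.repr x - b.repr y‖ = ‖x - y‖ := by
        rw [← map_sub, LinearIsometryEquiv.norm_map]
      have e2 : ‖b.repr.symm (G (1 + ε) hc.le (b.repr x)) -
          b.repr.symm (G (1 + ε) hc.le (b.repr y))‖ =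
          ‖G (1 + ε) hc.le (b.repr x) - G (1 + ε) hc.le (b.repr y)‖ := by
        rw [← map_sub, LinearIsometryEquiv.norm_map]
      refine ⟨?_, ?_⟩
      · rw [← e1]
        exact (G_lower (1 + ε) hc.le _ _).trans e2.ge
      · rw [← e1]
        exact e2.le.trans (G_upper (1 + ε) hc.le _ _)
    · intro x₀
      exact nowhere (1 + ε) hc b.repr x₀

end Pool.Agent.Results.MP_714461_an.NowhereGateaux
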